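import Pool.Agent.Y883.GJ.Stm
import Pool.Agent.TH935.LP.L1

set_option autoImplicit false

/-! The pointwise estimate on the major arcs. -/

namespace Pool.Agent.Y378.GJ

open Finset
open Pool.Agent.Y883.GJ
open Pool.Agent.H807R2.Dav (ee)
open Pool.Agent.H373R2.T7 (lamz Vz pz)
open Pool.Agent.Y883.T3 (lsh)

lemma prod_low (S : Finset ℕ) (hS : ∀ p ∈ S, 2 ≤ p) :
    (1 : ℚ) / (S.card + 1) ≤ ∏ p ∈ S, (1 - (p : ℚ)⁻¹) := by
  induction S using Finset.induction_on_max with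
  | empty => simp
  | insert a s hmax ih =>
    have ha : a ∉ s := fun h => (hmax a h).false
    rw [prod_insert ha, card_insert_of_notMem ha]
    have h1 := ih fun p hp => hS p (mem_insert_of_mem hp)
    have h2 : 2 ≤ a := hS a (mem_insert_self _ _)
    have h3 : s.card ≤ a - 2 := by
      have : s ⊆ Ico 2 a := by
        intro p hp
        rw [mem_Ico]
        exact ⟨hS p (mem_insert_of_mem hp), hmax p hp⟩
      have := card_le_card this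
      rwa [Nat.card_Ico] at this
    have h4 : (s.card : ℚ) + 2 ≤ a := by
      exact_mod_cast (by omega : s.card + 2 ≤ a)
    have hc : (0 : ℚ) ≤ s.card := Nat.cast_nonneg _
    have h5 : (a : ℚ)⁻¹ ≤ 1 / (s.card + 2) := by
      rw [← one_div]
      exact one_div_le_one_div_of_le (by linarith) h4
    have h6 : ((s.card : ℚ) + 1) / (s.card + 2) ≤ 1 - (a : ℚ)⁻¹ := by
      have : ((s.card : ℚ) + 1) / (s.card + 2) = 1 - 1 / (s.card + 2) := by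
        field_simp
        ring
      rw [this]
      linarith
    calc (1 : ℚ) / ((s.card + 1 : ℕ) + 1) =
        ((s.card : ℚ) + 1) / (s.card + 2) * (1 / (s.card + 1)) := by
          push_cast
          field_simp
          ring
      _ ≤ (1 - (a : ℚ)⁻¹) * ∏ p ∈ s, (1 - (p : ℚ)⁻¹) := by
          apply mul_le_mul h6 h1 (by positivity)
          refine le_trans (by positivity) h6

lemma phi_low (q : ℕ) (hq : 1 ≤ q) : (q : ℝ) ≤ (1 + 2 * Real.log q) * Nat.totient q := by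
  have h1 := prod_low q.primeFactors (fun p hp => (Nat.prime_of_mem_primeFactors hp).two_le)
  have h2 := Nat.totient_eq_mul_prod_factors q
  have h3 : (q : ℚ) ≤ (q.primeFactors.card + 1) * Nat.totient q := by
    rw [h2]
    rw [div_le_iff₀ (by positivity)] at h1
    have h0 : (0 : ℚ) ≤ q := Nat.cast_nonneg _
    nlinarith
  have h4 : (q : ℝ) ≤ (q.primeFactors.card + 1) * Nat.totient q := by exact_mod_cast h3
  have h5 : (q.primeFactors.card : ℝ) ≤ 2 * Real.log q := by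
    have h8 : 2 ^ q.primeFactors.card ≤ q := by
      calc 2 ^ q.primeFactors.card = ∏ p ∈ q.primeFactors, 2 := by rw [prod_const]
        _ ≤ ∏ p ∈ q.primeFactors, p :=
          prod_le_prod' fun p hp => (Nat.prime_of_mem_primeFactors hp).two_le
        _ ≤ q := Nat.le_of_dvd (by omega) (Nat.prod_primeFactors_dvd q)
    have q1 : (2 : ℝ) ^ q.primeFactors.card ≤ q := by exact_mod_cast h8
    have q2 := Real.log_le_log (by positivity) q1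
    rw [Real.log_pow] at q2
    have q3 : (1 : ℝ) / 2 ≤ Real.log 2 := by linarith [Real.log_two_gt_d9]
    nlinarith [(Nat.cast_nonneg q.primeFactors.card : (0 : ℝ) ≤ (q.primeFactors.card : ℝ))]
  refine h4.trans ?_
  apply mul_le_mul_of_nonneg_right _ (Nat.cast_nonneg _)
  linarith

lemma cs_FF {q : ℕ} (N z r : ℕ) (β : ℝ) (χ : DirichletCharacter ℂ q) :
    cs q N (FF z r) β χ = cs q N LA β χ - cs q N (LS z r) β χ := by
  unfold cs
  rw [← sum_sub_distrib]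
  refine sum_congr rfl fun n _ => ?_
  unfold FF LA LS
  push_cast
  ring

lemma norm_FF (z r n : ℕ) : ‖FF z r n‖ = |ArithmeticFunction.vonMangoldt n - lsh z r n| := by
  unfold FF
  rw [Complex.norm_real, Real.norm_eq_abs]

lemma norm_LA (n : ℕ) : ‖LA n‖ = ArithmeticFunction.vonMangoldt n := by
  unfold LA
  rw [Complex.norm_real, Real.norm_eq_abs, abs_of_nonneg ArithmeticFunction.vonMangoldt_nonneg]

lemma LA_le {N n : ℕ} (hn : n ∈ Icc 1 N) (hL : 1 ≤ Real.log N) :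
    ‖LA n‖ ≤ 2 * Real.log N * (n.divisors.card : ℝ) := by
  rw [norm_LA]
  rw [mem_Icc] at hn
  have h1 : ArithmeticFunction.vonMangoldt n ≤ Real.log n :=
    ArithmeticFunction.vonMangoldt_le_log
  have h2 : Real.log n ≤ Real.log N := by
    apply Real.log_le_log
    · exact_mod_cast hn.1
    · exact_mod_cast hn.2
  have h3 : (1 : ℝ) ≤ (n.divisors.card : ℝ) := by
    have h4 : 0 < n.divisors.card := card_pos.2 ⟨1, Nat.one_mem_divisors.2 (by omega)⟩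
    exact_mod_cast h4
  nlinarith

/-- Cauchy-Schwarz -/
lemma cauchy {q : ℕ} [NeZero q] (x y : ZMod q → ℂ) (a : ZMod q) :
    ‖∑ l, x l * y (a - l)‖ ^ 2 ≤ (∑ l, ‖x l‖ ^ 2) * ∑ l, ‖y l‖ ^ 2 := by
  have h1 : ‖∑ l, x l * y (a - l)‖ ≤ ∑ l, ‖x l‖ * ‖y (a - l)‖ := by
    refine (norm_sum_le _ _).trans (le_of_eq ?_)
    exact sum_congr rfl fun l _ => norm_mul _ _
  have h2 : (∑ l, ‖x l‖ * ‖y (a - l)‖) ^ 2 ≤ (∑ l, ‖x l‖ ^ 2) * ∑ l, ‖y (a - l)‖ ^ 2 :=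
    sum_mul_sq_le_sq_mul_sq _ _ _
  have h3 : ∑ l, ‖y (a - l)‖ ^ 2 = ∑ l, ‖y l‖ ^ 2 :=
    Equiv.sum_comp (Equiv.subLeft a) (fun l => ‖y l‖ ^ 2)
  rw [h3] at h2
  exact (pow_le_pow_left₀ (norm_nonneg _) h1 2).trans h2

lemma sum_norm_sq {ι : Type*} (s : Finset ι) (x : ι → ℂ) (K : ℝ) (h : ∀ i ∈ s, ‖x i‖ ^ 2 ≤ K) :
    ‖∑ i ∈ s, x i‖ ^ 2 ≤ (s.card : ℝ) ^ 2 * K := by
  rcases s.eq_empty_or_nonempty with rfl | ⟨i0, hi0⟩
  · simp
  have hK : 0 ≤ K := (sq_nonneg _).trans (h i0 hi0)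
  have h1 : ‖∑ i ∈ s, x i‖ ≤ ∑ i ∈ s, Real.sqrt K := by
    refine (norm_sum_le _ _).trans (sum_le_sum fun i hi => ?_)
    exact Real.le_sqrt_of_sq_le (h i hi)
  rw [sum_const, nsmul_eq_mul] at h1
  calc ‖∑ i ∈ s, x i‖ ^ 2 ≤ ((s.card : ℝ) * Real.sqrt K) ^ 2 :=
        pow_le_pow_left₀ (norm_nonneg _) h1 2
    _ = (s.card : ℝ) ^ 2 * K := by rw [mul_pow, Real.sq_sqrt hK]

/-- the product of two sums over characters -/
lemma third (q N : ℕ) [NeZero q] (G F : ℕ → ℂ) (β : ℝ) (B1 B2 : Finset (DirichletCharacter ℂ q))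
    (a : ZMod q) (SG SF J : ℝ) (hSG0 : 0 ≤ SG) (hSF0 : 0 ≤ SF)
    (hSG : ∀ χ, ‖cs q N G β χ‖ ^ 2 ≤ q.totient * SG)
    (hSF : ∀ χ, ‖cs q N F β χ‖ ^ 2 ≤ q.totient * SF)
    (hJ : ∀ χ₁ : DirichletCharacter ℂ q, ∀ χ₂ ∈ B2, ‖∑ l, χ₁⁻¹ l * χ₂⁻¹ (a - l)‖ ^ 2 ≤ J) :
    ‖∑ l, clB q N G β B1 l * clB q N F β B2 (a - l)‖ ^ 2 ≤
      ((q.totient : ℝ)⁻¹) ^ 2 * (B1.card : ℝ) ^ 2 * (B2.card : ℝ) ^ 2 * SG * SF * J := by
  have hφ : (0 : ℝ) < q.totient := by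
    exact_mod_cast Nat.totient_pos.2 (Nat.pos_of_ne_zero (NeZero.ne q))
  have e1 : ∑ l, clB q N G β B1 l * clB q N F β B2 (a - l) =
      ((q.totient : ℂ)⁻¹) ^ 2 * ∑ χ ∈ B1 ×ˢ B2, cs q N G β χ.1 * cs q N F β χ.2 *
        ∑ l, χ.1⁻¹ l * χ.2⁻¹ (a - l) := by
    unfold clB
    rw [sum_product, mul_sum]
    have e2 : ∀ l : ZMod q, (q.totient : ℂ)⁻¹ * (∑ χ ∈ B1, χ⁻¹ l * cs q N G β χ) *
        ((q.totient : ℂ)⁻¹ * ∑ χ ∈ B2, χ⁻¹ (a - l) * cs q N F β χ) =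
        ∑ χ₁ ∈ B1, ∑ χ₂ ∈ B2, ((q.totient : ℂ)⁻¹) ^ 2 * (cs q N G β χ₁ * cs q N F β χ₂ *
          (χ₁⁻¹ l * χ₂⁻¹ (a - l))) := by
      intro l
      have e3 : (q.totient : ℂ)⁻¹ * (∑ χ ∈ B1, χ⁻¹ l * cs q N G β χ) *
        ((q.totient : ℂ)⁻¹ * ∑ χ ∈ B2, χ⁻¹ (a - l) * cs q N F β χ) =
        ((q.totient : ℂ)⁻¹) ^ 2 * ((∑ χ ∈ B1, χ⁻¹ l * cs q N G β χ) *
          ∑ χ ∈ B2, χ⁻¹ (a - l) * cs q N F β χ) := by ring
      rw [e3, sum_mul_sum, mul_sum]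
      refine sum_congr rfl fun χ₁ _ => ?_
      rw [mul_sum]
      refine sum_congr rfl fun χ₂ _ => ?_
      ring
    rw [sum_congr rfl fun l _ => e2 l, sum_comm]
    refine sum_congr rfl fun χ₁ _ => ?_
    rw [sum_comm, mul_sum]
    refine sum_congr rfl fun χ₂ _ => ?_
    rw [← mul_sum, ← mul_sum]
  rw [e1, norm_mul, mul_pow]
  have h1 : ‖∑ χ ∈ B1 ×ˢ B2, cs q N G β χ.1 * cs q N F β χ.2 *
        ∑ l, χ.1⁻¹ l * χ.2⁻¹ (a - l)‖ ^ 2 ≤ ((B1 ×ˢ B2).card : ℝ) ^ 2 *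
        (q.totient * SG * (q.totient * SF) * J) := by
    apply sum_norm_sq
    intro χ hχ
    rw [mem_product] at hχ
    rw [norm_mul, norm_mul, mul_pow, mul_pow]
    have k1 := hSG χ.1
    have k2 := hSF χ.2
    have k3 := hJ χ.1 χ.2 hχ.2
    have k4 := mul_le_mul k1 k2 (sq_nonneg _) (by positivity)
    exact mul_le_mul k4 k3 (sq_nonneg _) (by positivity)
  have h2 : ‖((q.totient : ℂ)⁻¹) ^ 2‖ ^ 2 = ((q.totient : ℝ)⁻¹) ^ 4 := by
    rw [norm_pow, norm_inv, Complex.norm_natCast, ← pow_mul]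
  rw [h2]
  refine (mul_le_mul_of_nonneg_left h1 (by positivity)).trans (le_of_eq ?_)
  rw [card_product]
  push_cast
  field_simp

lemma sqrt_bound (N L : ℝ) (hN : 0 ≤ N) (hL : 1 ≤ L) (c U W : ℕ) (h2 : (2 : ℝ) ^ c ≤ L)
    (hU : 1 + c + 2 * W ≤ U) : Real.sqrt (N / L ^ U * (N * (2 * L) ^ c)) ≤ N / L ^ W := by
  have hL0 : 0 < L := by linarith
  apply Real.sqrt_le_iff.2
  refine ⟨by positivity, ?_⟩
  have e1 : (2 * L) ^ c * L ^ (2 * W) ≤ L ^ U := by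
    calc (2 * L) ^ c * L ^ (2 * W) = 2 ^ c * L ^ (c + 2 * W) := by
          rw [mul_pow, pow_add]
          ring
      _ ≤ L * L ^ (c + 2 * W) := mul_le_mul_of_nonneg_right h2 (by positivity)
      _ = L ^ (1 + c + 2 * W) := by
          rw [add_assoc 1, pow_add L 1, pow_one]
      _ ≤ L ^ U := pow_le_pow_right₀ hL hU
  have e2 : N / L ^ U * (N * (2 * L) ^ c) = N ^ 2 * ((2 * L) ^ c * L ^ (2 * W)) /
      (L ^ U * L ^ (2 * W)) := by
    field_simp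
  have e3 : (N / L ^ W) ^ 2 = N ^ 2 * L ^ U / (L ^ U * L ^ (2 * W)) := by
    rw [div_pow, ← pow_mul, mul_comm W 2]
    field_simp
  rw [e2, e3]
  apply div_le_div_of_nonneg_right _ (by positivity)
  exact mul_le_mul_of_nonneg_left e1 (by positivity)

lemma comb (N q φ L X Y : ℝ) (A : ℕ) (hq : 0 < q) (hφ : 0 < φ) (hL : 200 ≤ L)
    (hqφ : q ≤ 3 * L * φ) (hX : X ≤ 8 * N ^ 2 / L ^ (A + 3))
    (hY : Y ≤ 2 * N / q * (N / L ^ (A + 2))) : φ⁻¹ * X + Y ≤ N ^ 2 / (q * L ^ (A + 1)) := by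
  have hL0 : 0 < L := by linarith
  have h1 : φ⁻¹ ≤ 3 * L / q := by
    rw [inv_eq_one_div, div_le_div_iff₀ hφ hq]
    linarith
  have h2 : φ⁻¹ * X ≤ 3 * L / q * (8 * N ^ 2 / L ^ (A + 3)) := by
    calc φ⁻¹ * X ≤ φ⁻¹ * (8 * N ^ 2 / L ^ (A + 3)) :=
          mul_le_mul_of_nonneg_left hX (by positivity)
      _ ≤ _ := mul_le_mul_of_nonneg_right h1 (by positivity)
  have h3 : 3 * L / q * (8 * N ^ 2 / L ^ (A + 3)) = 24 / L * (N ^ 2 / (q * L ^ (A + 1))) := by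
    have e : L ^ (A + 3) = L ^ (A + 1) * L * L := by ring
    rw [e]
    field_simp
    ring
  have h4 : 2 * N / q * (N / L ^ (A + 2)) = 2 / L * (N ^ 2 / (q * L ^ (A + 1))) := by
    have e : L ^ (A + 2) = L ^ (A + 1) * L := by ring
    rw [e]
    field_simp
  have h5 : 24 / L ≤ 1 / 2 := by
    rw [div_le_div_iff₀ hL0 two_pos]
    linarith
  have h6 : 2 / L ≤ 1 / 2 := by
    rw [div_le_div_iff₀ hL0 two_pos]
    linarith
  have hE : 0 ≤ N ^ 2 / (q * L ^ (A + 1)) := by positivity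
  nlinarith

lemma comb3 (N q φ L SG SF J b1 b2 : ℝ) (A T C3 : ℕ) (hq : 0 < q) (hφ : 0 < φ) (hL : 200 ≤ L)
    (hqφ : q ≤ 3 * L * φ) (hSG : 0 ≤ SG) (hSF0 : 0 ≤ SF)
    (hSF : SF ≤ N ^ 2 * L ^ 7 / q) (hb1 : 0 ≤ b1) (hb2 : 0 ≤ b2) (hB1 : b1 ≤ L ^ C3)
    (hB2 : b2 ≤ L ^ C3) (hJ0 : 0 ≤ J)
    (hJ : J ≤ (q * (2 * L)) ^ 2 * (L ^ T / L ^ (4 * C3 + T + A + 13))) :
    (φ⁻¹) ^ 2 * b1 ^ 2 * b2 ^ 2 * SG * SF * J ≤ SG * (N ^ 2 / (q * L ^ (A + 1))) := by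
  have hL0 : 0 < L := by linarith
  have h1 : φ⁻¹ ≤ 3 * L / q := by
    rw [inv_eq_one_div, div_le_div_iff₀ hφ hq]
    linarith
  have h2 : (φ⁻¹) ^ 2 ≤ (3 * L / q) ^ 2 := pow_le_pow_left₀ (by positivity) h1 2
  have h3 : b1 ^ 2 ≤ (L ^ C3) ^ 2 := pow_le_pow_left₀ hb1 hB1 2
  have h4 : b2 ^ 2 ≤ (L ^ C3) ^ 2 := pow_le_pow_left₀ hb2 hB2 2
  calc (φ⁻¹) ^ 2 * b1 ^ 2 * b2 ^ 2 * SG * SF * J
      ≤ (3 * L / q) ^ 2 * (L ^ C3) ^ 2 * (L ^ C3) ^ 2 * SG * (N ^ 2 * L ^ 7 / q) *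
        ((q * (2 * L)) ^ 2 * (L ^ T / L ^ (4 * C3 + T + A + 13))) := by gcongr
    _ = 36 / L * (SG * (N ^ 2 / (q * L ^ (A + 1)))) := by
        have e : L ^ (4 * C3 + T + A + 13) = (L ^ C3) ^ 2 * (L ^ C3) ^ 2 * L ^ T *
          L ^ (A + 1) * L ^ 12 := by ring
        rw [e]
        field_simp
        ring
    _ ≤ 1 * (SG * (N ^ 2 / (q * L ^ (A + 1)))) := by
        apply mul_le_mul_of_nonneg_right _ (by positivity)
        rw [div_le_one hL0]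
        linarith
    _ = _ := one_mul _

lemma three_sq (x y w : ℂ) : ‖x + y + w‖ ^ 2 ≤ 3 * (‖x‖ ^ 2 + ‖y‖ ^ 2 + ‖w‖ ^ 2) := by
  have k1 : ‖x + y + w‖ ≤ ‖x‖ + ‖y‖ + ‖w‖ := norm_add₃_le
  have k2 := norm_nonneg (x + y + w)
  nlinarith [sq_nonneg (‖x‖ - ‖y‖), sq_nonneg (‖x‖ - ‖w‖), sq_nonneg (‖y‖ - ‖w‖)]

lemma eA (N q L : ℝ) (A : ℕ) (hL : 0 < L) (hq : 0 < q) :
    N ^ 2 / (q * L ^ A) = L * (N ^ 2 / (q * L ^ (A + 1))) := by
  have e : L ^ (A + 1) = L ^ A * L := pow_succ L A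
  rw [e]
  field_simp

lemma fin_arith (E SG SF L x y w : ℝ) (hE : 0 ≤ E) (hSG : 0 ≤ SG) (hSF : 0 ≤ SF) (hL : 200 ≤ L)
    (hx : x ≤ E * SF) (hy : y ≤ SG * E) (hw : w ≤ SG * E) :
    3 * (x + y + w) ≤ L * E * (SG + SF) := by
  have k0 : 0 ≤ E * SG := mul_nonneg hE hSG
  have k1 : 0 ≤ E * SF := mul_nonneg hE hSF
  have k2 : 6 * (E * SG + E * SF) ≤ L * (E * SG + E * SF) :=
    mul_le_mul_of_nonneg_right (by linarith) (by positivity)
  have k3 : L * E * (SG + SF) = L * (E * SG + E * SF) := by ring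
  rw [k3]
  refine le_trans ?_ k2
  rw [mul_comm SG E] at hy hw
  linarith

theorem pw (h1 : MajLStm) (h2 : MajHStm) (h3 : OrthStm) (h4 : L2Stm) (h5 : SmallCStm)
    (h6 : JacStm) (h7 : NonUStm) : PWStm := by
  intro A C T ρ hρ
  obtain ⟨C3, N1, hN1⟩ := h1 (A + 3) C ρ hρ
  obtain ⟨N2, hN2⟩ := h2 (A + 3) C ρ hρ
  obtain ⟨c, hc⟩ := h7
  obtain ⟨N3, hN3⟩ := Pool.Agent.TH935.LD.ev_L' (200 + 2 ^ c)
  obtain ⟨A2, hA2⟩ : ∃ A2 : ℕ, A2 = 4 * C3 + T + A + 13 := ⟨_, rfl⟩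
  obtain ⟨U, hU⟩ : ∃ U : ℕ, U = 1 + c + 2 * (A + 2) + C3 + 2 * A2 + (A + 3) := ⟨_, rfl⟩
  refine ⟨U, N1 + N2 + N3 + 3, fun N hN q _ hq z r hPar a ha η hη => ?_⟩
  have hLc := hN3 N (by omega)
  have h2c : (0 : ℝ) < 2 ^ c := by positivity
  obtain ⟨L, hLdef⟩ : ∃ L : ℝ, L = Real.log N := ⟨_, rfl⟩
  have hL200 : 200 ≤ L := by rw [hLdef]; linarith
  have hL2c : (2 : ℝ) ^ c ≤ L := by rw [hLdef]; linarith
  have hL0 : 0 < L := by linarith
  have hL1 : 1 ≤ L := by linarith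
  have hN0 : 1 ≤ N := by omega
  have hNr : (1 : ℝ) ≤ N := by exact_mod_cast hN0
  have hNp : (0 : ℝ) < N := by linarith
  have hq0 : 0 < q := Nat.pos_of_ne_zero (NeZero.ne q)
  have hqr : (0 : ℝ) < q := by exact_mod_cast hq0
  have hqNr : (q : ℝ) ≤ N := by
    refine hq.trans ?_
    calc (N : ℝ) ^ (1 / 2 - ρ) ≤ (N : ℝ) ^ (1 : ℝ) :=
          Real.rpow_le_rpow_of_exponent_le hNr (by linarith)
      _ = N := Real.rpow_one _
  have hqN : q ≤ N := by exact_mod_cast hqNr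
  have hφ0 : (0 : ℝ) < q.totient := by exact_mod_cast Nat.totient_pos.2 hq0
  have hqφ : (q : ℝ) ≤ 3 * L * q.totient := by
    refine (phi_low q hq0).trans (mul_le_mul_of_nonneg_right ?_ hφ0.le)
    have k1 : Real.log q ≤ L := by
      rw [hLdef]
      exact Real.log_le_log hqr hqNr
    linarith
  obtain ⟨B, h1B, hBc, hB⟩ := hN1 N (by omega) q hq
  have hH := hN2 N (by omega) q hq z r hPar.hD hPar.hV
  rw [← hLdef] at hBc
  -- pointwise bounds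
  have hLAn : ∀ n ∈ Icc 1 N, ‖LA n‖ ≤ (2 * L) * (n.divisors.card : ℝ) := by
    intro n hn
    rw [hLdef]
    exact LA_le hn (by rw [← hLdef]; exact hL1)
  have hFFn : ∀ n ∈ Icc 1 N, ‖FF z r n‖ ≤ (2 * L) * (n.divisors.card : ℝ) := by
    intro n hn
    rw [hLdef, norm_FF]
    exact hPar.hT n hn
  have hLAc : ∑ n ∈ (Icc 1 N).filter (fun n => ¬ n.Coprime q), ‖LA n‖ ≤ N / L ^ U := by
    rw [hLdef]
    refine le_trans (le_of_eq (sum_congr rfl fun n _ => norm_LA n)) (hPar.hL q hq0 hqN)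
  have hFFc : ∑ n ∈ (Icc 1 N).filter (fun n => ¬ n.Coprime q), ‖FF z r n‖ ≤ N / L ^ U := by
    rw [hLdef]
    refine le_trans (le_of_eq (sum_congr rfl fun n _ => norm_FF z r n)) (hPar.hC q hq0 hqN)
  have hNq : (N : ℝ) / q + 1 ≤ 2 * N / q := by
    have k1 : (1 : ℝ) ≤ N / q := by rw [le_div_iff₀ hqr]; linarith
    have k2 : 2 * (N : ℝ) / q = N / q + N / q := by ring
    rw [k2]
    linarith
  have hnon : ∀ F : ℕ → ℂ, (∀ n ∈ Icc 1 N, ‖F n‖ ≤ (2 * L) * (n.divisors.card : ℝ)) →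
      (∑ n ∈ (Icc 1 N).filter (fun n => ¬ n.Coprime q), ‖F n‖ ≤ N / L ^ U) →
      ∑ l ∈ univ.filter (fun l : ZMod q => ¬ IsUnit l), ‖cl q N F η l‖ ^ 2 ≤
        2 * N / q * (N / L ^ (A + 2)) := by
    intro F hF1 hF2
    refine (hc q N F (2 * L) (N / L ^ U) η hN0 (by rw [hLdef] at hL1 ⊢; linarith) hF1 hF2).trans ?_
    refine mul_le_mul hNq (sqrt_bound N L hNp.le hL1 c U (A + 2) hL2c (by omega))
      (Real.sqrt_nonneg _) (by positivity)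
  have htriv : ∀ F : ℕ → ℂ, (∀ n ∈ Icc 1 N, ‖F n‖ ≤ (2 * L) * (n.divisors.card : ℝ)) →
      ∑ l : ZMod q, ‖cl q N F η l‖ ^ 2 ≤ N ^ 2 * L ^ 7 / q := by
    intro F hF1
    refine ((h4 q N F).2 η).trans ?_
    have k1 : ∑ n ∈ Icc 1 N, ‖F n‖ ^ 2 ≤ (2 * L) ^ 2 * (N * (2 * L) ^ 4) := by
      calc ∑ n ∈ Icc 1 N, ‖F n‖ ^ 2 ≤ ∑ n ∈ Icc 1 N, (2 * L) ^ 2 * (n.divisors.card : ℝ) ^ 2 := by
            refine sum_le_sum fun n hn => ?_
            rw [← mul_pow]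
            exact pow_le_pow_left₀ (norm_nonneg _) (hF1 n hn) 2
        _ = (2 * L) ^ 2 * ∑ n ∈ Icc 1 N, (n.divisors.card : ℝ) ^ 2 := by rw [mul_sum]
        _ ≤ (2 * L) ^ 2 * (N * (1 + Real.log N) ^ (2 ^ 2)) :=
            mul_le_mul_of_nonneg_left (Pool.Agent.TH935.LD.tau_pow_sum 2 N) (by positivity)
        _ ≤ (2 * L) ^ 2 * (N * (2 * L) ^ 4) := by
            rw [← hLdef]
            have k2 : (1 + L) ^ (2 ^ 2) ≤ (2 * L) ^ 4 := by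
              norm_num only
              exact pow_le_pow_left₀ (by linarith) (by linarith) 4
            gcongr
    calc ((N : ℝ) / q + 1) * ∑ n ∈ Icc 1 N, ‖F n‖ ^ 2
        ≤ 2 * N / q * ((2 * L) ^ 2 * (N * (2 * L) ^ 4)) :=
          mul_le_mul hNq k1 (sum_nonneg fun _ _ => sq_nonneg _) (by positivity)
      _ = 128 * (N ^ 2 * L ^ 6 / q) := by ring
      _ ≤ L * (N ^ 2 * L ^ 6 / q) := mul_le_mul_of_nonneg_right (by linarith) (by positivity)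
      _ = N ^ 2 * L ^ 7 / q := by ring
  -- the sums over the good characters
  have hLS : ∀ S : Finset (DirichletCharacter ℂ q), Disjoint S B →
      ∑ χ ∈ S, ‖cs q N LA η χ‖ ^ 2 ≤ N ^ 2 / L ^ (A + 3) := by
    intro S hS
    rw [hLdef]
    exact hB η hη S hS
  have hFS : ∀ S : Finset (DirichletCharacter ℂ q), Disjoint S B →
      ∑ χ ∈ S, ‖cs q N (FF z r) η χ‖ ^ 2 ≤ 4 * (N ^ 2 / L ^ (A + 3)) := by
    intro S hS
    have k1 := hLS S hS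
    have k2 : ∑ χ ∈ S, ‖cs q N (LS z r) η χ‖ ^ 2 ≤ N ^ 2 / L ^ (A + 3) := by
      rw [hLdef]
      exact hH η hη S (fun h => (disjoint_left.1 hS) h h1B)
    calc ∑ χ ∈ S, ‖cs q N (FF z r) η χ‖ ^ 2
        ≤ ∑ χ ∈ S, (2 * ‖cs q N LA η χ‖ ^ 2 + 2 * ‖cs q N (LS z r) η χ‖ ^ 2) := by
          refine sum_le_sum fun χ _ => ?_
          rw [cs_FF]
          have k3 := norm_sub_le (cs q N LA η χ) (cs q N (LS z r) η χ)
          have k4 := norm_nonneg (cs q N LA η χ - cs q N (LS z r) η χ)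
          nlinarith [sq_nonneg (‖cs q N LA η χ‖ - ‖cs q N (LS z r) η χ‖)]
      _ = 2 * ∑ χ ∈ S, ‖cs q N LA η χ‖ ^ 2 + 2 * ∑ χ ∈ S, ‖cs q N (LS z r) η χ‖ ^ 2 := by
          rw [sum_add_distrib, mul_sum, mul_sum]
      _ ≤ _ := by linarith
  classical
  -- the bad characters of large conductor
  obtain ⟨BF, hBF⟩ : ∃ BF : Finset (DirichletCharacter ℂ q),
      BF = B.filter (fun χ => L ^ A2 < (χ.conductor : ℝ)) := ⟨_, rfl⟩
  have hBFc : (BF.card : ℝ) ≤ L ^ C3 := by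
    refine le_trans ?_ hBc
    rw [hBF]
    exact_mod_cast card_filter_le _ _
  have hsmall : ∀ χ : DirichletCharacter ℂ q, (χ.conductor : ℝ) ≤ L ^ A2 →
      ‖cs q N (FF z r) η χ‖ ≤ 2 * L ^ A2 * (N / L ^ U) := by
    intro χ hχ
    have k1 := h5 q N (FF z r) (N / L ^ U) (N / L ^ U) (fun α => by
      rw [hLdef]
      exact hPar.hS α) hFFc χ η
    refine k1.trans ?_
    have hLA : 1 ≤ L ^ A2 := one_le_pow₀ hL1
    have k2 : Real.sqrt χ.conductor ≤ L ^ A2 := by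
      apply Real.sqrt_le_iff.2
      refine ⟨by positivity, hχ.trans ?_⟩
      nlinarith
    have k3 : 0 ≤ N / L ^ U := by positivity
    nlinarith
  have hFB : ∑ χ ∈ univ.filter (fun χ => χ ∉ BF), ‖cs q N (FF z r) η χ‖ ^ 2 ≤
      8 * N ^ 2 / L ^ (A + 3) := by
    have hsub : univ.filter (fun χ => χ ∉ BF) ⊆
        (univ.filter (fun χ => χ ∉ B)) ∪ (B.filter (fun χ => ¬ L ^ A2 < (χ.conductor : ℝ))) := by
      intro χ hχ
      rw [mem_filter] at hχ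
      rw [mem_union, mem_filter, mem_filter]
      by_cases hb : χ ∈ B
      · right
        refine ⟨hb, fun h => hχ.2 ?_⟩
        rw [hBF, mem_filter]
        exact ⟨hb, h⟩
      · left
        exact ⟨mem_univ _, hb⟩
    have hdis : Disjoint (univ.filter (fun χ => χ ∉ B))
        (B.filter (fun χ => ¬ L ^ A2 < (χ.conductor : ℝ))) := by
      rw [disjoint_left]
      intro χ k1 k2
      exact (mem_filter.1 k1).2 (mem_filter.1 k2).1
    refine (sum_le_sum_of_subset_of_nonneg hsub fun _ _ _ => sq_nonneg _).trans ?_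
    rw [sum_union hdis]
    have k1 : ∑ χ ∈ univ.filter (fun χ => χ ∉ B), ‖cs q N (FF z r) η χ‖ ^ 2 ≤
        4 * (N ^ 2 / L ^ (A + 3)) := by
      apply hFS
      rw [disjoint_left]
      intro χ k1 k2
      exact (mem_filter.1 k1).2 k2
    have k2 : ∑ χ ∈ B.filter (fun χ => ¬ L ^ A2 < (χ.conductor : ℝ)),
        ‖cs q N (FF z r) η χ‖ ^ 2 ≤ 4 * (N ^ 2 / L ^ (A + 3)) := by
      calc ∑ χ ∈ B.filter (fun χ => ¬ L ^ A2 < (χ.conductor : ℝ)), ‖cs q N (FF z r) η χ‖ ^ 2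
          ≤ ∑ χ ∈ B.filter (fun χ => ¬ L ^ A2 < (χ.conductor : ℝ)),
            (2 * L ^ A2 * (N / L ^ U)) ^ 2 := by
            refine sum_le_sum fun χ hχ => ?_
            exact pow_le_pow_left₀ (norm_nonneg _)
              (hsmall χ (not_lt.1 (mem_filter.1 hχ).2)) 2
        _ = ((B.filter (fun χ => ¬ L ^ A2 < (χ.conductor : ℝ))).card : ℝ) *
            (2 * L ^ A2 * (N / L ^ U)) ^ 2 := by rw [sum_const, nsmul_eq_mul]
        _ ≤ L ^ C3 * (2 * L ^ A2 * (N / L ^ U)) ^ 2 := by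
            apply mul_le_mul_of_nonneg_right _ (sq_nonneg _)
            refine le_trans ?_ hBc
            exact_mod_cast card_filter_le _ _
        _ = 4 * (N ^ 2 * (L ^ C3 * L ^ (2 * A2) / (L ^ U * L ^ U))) := by
            rw [mul_pow, mul_pow, div_pow, ← pow_mul, mul_comm A2 2]
            ring
        _ ≤ 4 * (N ^ 2 * (1 / L ^ (A + 3))) := by
            have e1 : L ^ C3 * L ^ (2 * A2) / (L ^ U * L ^ U) ≤ 1 / L ^ (A + 3) := by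
              rw [div_le_div_iff₀ (by positivity) (by positivity), one_mul, ← pow_add, ← pow_add,
                ← pow_add]
              exact pow_le_pow_right₀ hL1 (by omega)
            gcongr
        _ = 4 * (N ^ 2 / L ^ (A + 3)) := by ring
    have k3 : 8 * (N : ℝ) ^ 2 / L ^ (A + 3) = 8 * (N ^ 2 / L ^ (A + 3)) := by ring
    rw [k3]
    linarith
  -- the four pieces
  obtain ⟨G, hG⟩ : ∃ G : ZMod q → ℂ, G = cl q N LA η := ⟨_, rfl⟩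
  obtain ⟨F, hF⟩ : ∃ F : ZMod q → ℂ, F = cl q N (FF z r) η := ⟨_, rfl⟩
  obtain ⟨Gb, hGb⟩ : ∃ Gb : ZMod q → ℂ, Gb = clB q N LA η B := ⟨_, rfl⟩
  obtain ⟨Fb, hFb⟩ : ∃ Fb : ZMod q → ℂ, Fb = clB q N (FF z r) η BF := ⟨_, rfl⟩
  obtain ⟨SG, hSG⟩ : ∃ SG : ℝ, SG = ∑ l, ‖G l‖ ^ 2 := ⟨_, rfl⟩
  obtain ⟨SF, hSF⟩ : ∃ SF : ℝ, SF = ∑ l, ‖F l‖ ^ 2 := ⟨_, rfl⟩
  have hSG0 : 0 ≤ SG := by rw [hSG]; exact sum_nonneg fun _ _ => sq_nonneg _
  have hSF0 : 0 ≤ SF := by rw [hSF]; exact sum_nonneg fun _ _ => sq_nonneg _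
  obtain ⟨E, hE⟩ : ∃ E : ℝ, E = (N : ℝ) ^ 2 / (q * L ^ (A + 1)) := ⟨_, rfl⟩
  have hE0 : 0 ≤ E := by rw [hE]; positivity
  have hSFt : SF ≤ N ^ 2 * L ^ 7 / q := by
    rw [hSF, hF]
    exact htriv _ hFFn
  have hGg : ∑ l, ‖G l - Gb l‖ ^ 2 ≤ E := by
    rw [hE, hG, hGb, (h3 q N LA η B).1]
    refine comb N q q.totient L _ _ A hqr hφ0 hL200 hqφ ?_ (hnon _ hLAn hLAc)
    refine (hLS _ ?_).trans ?_
    · rw [disjoint_left]
      intro χ k1 k2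
      exact (mem_filter.1 k1).2 k2
    · have k3 : 8 * (N : ℝ) ^ 2 / L ^ (A + 3) = 8 * (N ^ 2 / L ^ (A + 3)) := by ring
      have k4 : 0 ≤ (N : ℝ) ^ 2 / L ^ (A + 3) := by positivity
      rw [k3]
      linarith
  have hFg : ∑ l, ‖F l - Fb l‖ ^ 2 ≤ E := by
    rw [hE, hF, hFb, (h3 q N (FF z r) η BF).1]
    refine comb N q q.totient L _ _ A hqr hφ0 hL200 hqφ ?_ (hnon _ hFFn hFFc)
    convert hFB using 2
  have hGb2 : ∑ l, ‖Gb l‖ ^ 2 ≤ SG := by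
    rw [hSG, hG, hGb]
    exact (h3 q N LA η B).2.1
  have hcs : ∀ (F' : ℕ → ℂ) (χ : DirichletCharacter ℂ q),
      ‖cs q N F' η χ‖ ^ 2 ≤ q.totient * ∑ l, ‖cl q N F' η l‖ ^ 2 := by
    intro F' χ
    have k1 : ‖cs q N F' η χ‖ ^ 2 ≤ ∑ χ : DirichletCharacter ℂ q, ‖cs q N F' η χ‖ ^ 2 :=
      single_le_sum (f := fun χ : DirichletCharacter ℂ q => ‖cs q N F' η χ‖ ^ 2)
        (fun _ _ => sq_nonneg _) (mem_univ χ)
    refine k1.trans ?_
    rw [(h3 q N F' η B).2.2]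
    apply mul_le_mul_of_nonneg_left _ hφ0.le
    exact sum_le_sum_of_subset_of_nonneg (filter_subset _ _) fun _ _ _ => sq_nonneg _
  -- the three sums
  have t1 : ‖∑ l, (G l - Gb l) * F (a - l)‖ ^ 2 ≤ E * SF := by
    refine (cauchy (fun l => G l - Gb l) F a).trans ?_
    rw [← hSF]
    exact mul_le_mul_of_nonneg_right hGg hSF0
  have t2 : ‖∑ l, Gb l * (F (a - l) - Fb (a - l))‖ ^ 2 ≤ SG * E := by
    refine (cauchy Gb (fun l => F l - Fb l) a).trans ?_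
    exact mul_le_mul hGb2 hFg (sum_nonneg fun _ _ => sq_nonneg _) hSG0
  have t3 : ‖∑ l, Gb l * Fb (a - l)‖ ^ 2 ≤ SG * E := by
    have hJ : ∀ χ₁ : DirichletCharacter ℂ q, ∀ χ₂ ∈ BF,
        ‖∑ l, χ₁⁻¹ l * χ₂⁻¹ (a - l)‖ ^ 2 ≤ (q * (2 * L)) ^ 2 * (L ^ T / L ^ A2) := by
      intro χ₁ χ₂ hχ₂
      rw [hBF, mem_filter] at hχ₂
      have e1 : ∑ l, χ₁⁻¹ l * χ₂⁻¹ (a - l) = ∑ l, χ₂⁻¹ l * χ₁⁻¹ (a - l) := by
        rw [← Equiv.sum_comp (Equiv.subLeft a)]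
        refine sum_congr rfl fun l _ => ?_
        rw [Equiv.subLeft_apply, sub_sub_cancel, mul_comm]
      rw [e1]
      have k1 := h6 q χ₂⁻¹ χ₁⁻¹ a
      rw [DirichletCharacter.conductor_inv] at k1
      have hcond : 0 < (χ₂.conductor : ℝ) := lt_trans (by positivity) hχ₂.2
      have k2 : (Nat.gcd a.val q : ℝ) / χ₂.conductor ≤ L ^ T / L ^ A2 := by
        rw [hLdef] at hχ₂ ⊢
        have hp : (0 : ℝ) < Real.log N ^ A2 := by rw [← hLdef]; positivity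
        exact div_le_div₀ (by rw [← hLdef]; positivity) ha hp hχ₂.2.le
      have k3 : 1 + Real.log q ≤ 2 * L := by
        have k4 : Real.log q ≤ L := by
          rw [hLdef]
          exact Real.log_le_log hqr hqNr
        linarith
      have k5 : 0 ≤ 1 + Real.log q := by
        have := Real.log_natCast_nonneg q
        linarith
      calc ‖∑ l, χ₂⁻¹ l * χ₁⁻¹ (a - l)‖ ^ 2
          ≤ (q * (1 + Real.log q) * Real.sqrt ((Nat.gcd a.val q : ℝ) / χ₂.conductor)) ^ 2 :=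
            pow_le_pow_left₀ (norm_nonneg _) k1 2
        _ = (q * (1 + Real.log q)) ^ 2 * ((Nat.gcd a.val q : ℝ) / χ₂.conductor) := by
            rw [mul_pow, Real.sq_sqrt (by positivity)]
        _ ≤ (q * (2 * L)) ^ 2 * (L ^ T / L ^ A2) := by gcongr
    have k := third q N LA (FF z r) η B BF a SG SF ((q * (2 * L)) ^ 2 * (L ^ T / L ^ A2))
      hSG0 hSF0 (fun χ => by rw [hSG, hG]; exact hcs LA χ)
      (fun χ => by rw [hSF, hF]; exact hcs (FF z r) χ) hJ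
    rw [hGb, hFb]
    refine k.trans ?_
    rw [hE]
    exact comb3 N q q.totient L SG SF _ B.card BF.card A T C3 hqr hφ0 hL200 hqφ hSG0 hSF0 hSFt
      (Nat.cast_nonneg _) (Nat.cast_nonneg _) hBc hBFc (by positivity) (by rw [hA2])
  have hsum : ∑ l : ZMod q, cl q N LA η l * cl q N (FF z r) η (a - l) =
      (∑ l, (G l - Gb l) * F (a - l)) + (∑ l, Gb l * (F (a - l) - Fb (a - l))) +
        ∑ l, Gb l * Fb (a - l) := by
    rw [← sum_add_distrib, ← sum_add_distrib]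
    refine sum_congr rfl fun l _ => ?_
    rw [hG, hF]
    ring
  rw [hsum]
  refine (three_sq _ _ _).trans ?_
  rw [← hLdef, ← hG, ← hF, ← hSG, ← hSF, eA N q L A hL0 hqr, ← hE]
  exact fin_arith E SG SF L _ _ _ hE0 hSG0 hSF0 hL200 t1 t2 t3

end Pool.Agent.Y378.GJ
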